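import Mathlib

/-!
# An unbounded recurrent Hilbert space valued cocycle on the integers
-/

set_option autoImplicit false

open Filter Topology

namespace Pool.Agent.W747.NT

/-- the angle `2 π n / 2 ^ (20 l²)` -/
noncomputable def ang (n : ℤ) (l : ℕ) : ℝ := 2 * Real.pi * n / 2 ^ (20 * l ^ 2)

/-- the coordinates of the cocycle -/
noncomputable def tm (n : ℤ) (l : ℕ) : ℂ := (2 : ℂ) ^ (10 * l) * (Complex.exp (Complex.I * ang n l) - 1)

lemma ang_add (m n : ℤ) (l : ℕ) : ang (m + n) l = ang m l + ang n l := by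
  unfold ang; push_cast; ring

lemma ang_neg (m : ℤ) (l : ℕ) : ang (-m) l = - ang m l := by
  unfold ang; push_cast; ring

lemma norm_tm_sq (n : ℤ) (l : ℕ) :
    ‖tm n l‖ ^ 2 = 2 ^ (20 * l) * (2 * Real.sin (ang n l / 2)) ^ 2 := by
  unfold tm
  rw [norm_mul, Complex.norm_exp_I_mul_ofReal_sub_one, norm_pow, mul_pow, Real.norm_eq_abs, sq_abs]
  congr 1
  simp only [Complex.norm_ofNat]
  rw [← pow_mul]; ring_nf

lemma norm_tm_le4 (n : ℤ) (l : ℕ) : ‖tm n l‖ ^ 2 ≤ 4 * 2 ^ (20 * l) := by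
  rw [norm_tm_sq, mul_pow]
  have := Real.sin_sq_le_one (ang n l / 2)
  have h2 : (0:ℝ) < 2 ^ (20 * l) := by positivity
  nlinarith

lemma norm_tm_small (n : ℤ) (j l : ℕ) (hn : |(n : ℝ)| ≤ 2 ^ (20 * j ^ 2)) (hjl : j < l) :
    ‖tm n l‖ ^ 2 ≤ 64 * (1 / 2 ^ 20) ^ l := by
  rw [norm_tm_sq]
  have h1 : |Real.sin (ang n l / 2)| ≤ |ang n l / 2| := Real.abs_sin_le_abs
  have h2 : (2 * Real.sin (ang n l / 2)) ^ 2 ≤ (ang n l) ^ 2 := by
    have h3 : (Real.sin (ang n l / 2)) ^ 2 ≤ (ang n l / 2) ^ 2 := sq_le_sq.mpr h1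
    nlinarith
  have h4 : (ang n l) ^ 2 ≤ 64 * (2 ^ (20 * j ^ 2) / 2 ^ (20 * l ^ 2)) ^ 2 := by
    have h5 : |ang n l| ≤ 8 * (2 ^ (20 * j ^ 2) / 2 ^ (20 * l ^ 2)) := by
      unfold ang
      rw [abs_div, abs_mul, abs_mul, abs_of_pos Real.pi_pos, abs_of_pos (by norm_num : (0:ℝ) < 2),
        abs_of_pos (by positivity : (0:ℝ) < 2 ^ (20 * l ^ 2)), mul_div_assoc]
      have := Real.pi_le_four
      gcongr
      linarith
    calc (ang n l) ^ 2 = |ang n l| ^ 2 := (sq_abs _).symm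
      _ ≤ (8 * (2 ^ (20 * j ^ 2) / 2 ^ (20 * l ^ 2))) ^ 2 := by gcongr
      _ = _ := by ring
  have h6 : (2:ℝ) ^ (20 * j ^ 2) / 2 ^ (20 * l ^ 2) ≤ 1 / 2 ^ (20 * l) := by
    rw [div_le_div_iff₀ (by positivity) (by positivity), one_mul, ← pow_add]
    apply pow_le_pow_right₀ (by norm_num)
    nlinarith
  have h7 : ((2:ℝ) ^ (20 * j ^ 2) / 2 ^ (20 * l ^ 2)) ^ 2 ≤ (1 / 2 ^ (20 * l)) ^ 2 := by gcongr
  calc (2:ℝ) ^ (20 * l) * (2 * Real.sin (ang n l / 2)) ^ 2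
      ≤ 2 ^ (20 * l) * (64 * (1 / 2 ^ (20 * l)) ^ 2) := by
        gcongr
        exact h2.trans (h4.trans (by gcongr))
    _ = 64 * (1 / 2 ^ 20) ^ l := by
        rw [div_pow, one_pow, ← pow_mul, div_pow, one_pow]
        field_simp
        rw [← pow_mul, ← pow_add]
        congr 1
        ring

/-- the majorant -/
noncomputable def U (j l : ℕ) : ℝ := if l ≤ j then 4 * 2 ^ (20 * l) else 64 * (1 / 2 ^ 20) ^ l

lemma tm_le_U (n : ℤ) (j l : ℕ) (hn : |(n : ℝ)| ≤ 2 ^ (20 * j ^ 2)) : ‖tm n l‖ ^ 2 ≤ U j l := by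
  unfold U
  split_ifs with h
  · exact norm_tm_le4 n l
  · exact norm_tm_small n j l hn (not_le.mp h)

lemma geo_summable : Summable (fun l : ℕ => (64:ℝ) * (1 / 2 ^ 20) ^ l) :=
  (summable_geometric_of_lt_one (by norm_num) (by norm_num)).mul_left _

lemma U_tail (j i : ℕ) : U j (i + (j + 1)) = (64 * (1 / 2 ^ 20) ^ (j + 1)) * (1 / 2 ^ 20) ^ i := by
  unfold U
  rw [if_neg (by omega), pow_add]
  ring

lemma U_summable (j : ℕ) : Summable (U j) := by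
  rw [← summable_nat_add_iff (j + 1)]
  simp_rw [U_tail]
  exact (summable_geometric_of_lt_one (by norm_num) (by norm_num)).mul_left _

lemma sumC (j : ℕ) : ∑ l ∈ Finset.range j, (2:ℝ) ^ (20 * l) ≤ 2 ^ (20 * j) / 2 ^ 10 := by
  induction j with
  | zero => simp
  | succ j ih =>
    rw [Finset.sum_range_succ]
    have h : (2:ℝ) ^ (20 * (j + 1)) = 2 ^ (20 * j) * 2 ^ 20 := by ring
    rw [h]
    have h0 : (0:ℝ) < 2 ^ (20 * j) := by positivity
    have h1 : (2:ℝ) ^ (20 * j) / 2 ^ 10 + 2 ^ (20 * j) ≤ 2 ^ (20 * j) * 2 ^ 20 / 2 ^ 10 := by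
      rw [mul_div_assoc]
      norm_num
      linarith
    linarith

lemma U_tsum (j : ℕ) : ∑' l, U j l ≤ 5 * 2 ^ (20 * j) - 1 / 2 := by
  rw [← (U_summable j).sum_add_tsum_nat_add (j + 1)]
  simp_rw [U_tail]
  rw [tsum_mul_left, tsum_geometric_of_lt_one (by norm_num) (by norm_num)]
  have h1 : ∑ l ∈ Finset.range (j + 1), U j l = 4 * ∑ l ∈ Finset.range (j + 1), (2:ℝ) ^ (20 * l) := by
    rw [Finset.mul_sum]
    apply Finset.sum_congr rfl
    intro l hl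
    unfold U
    rw [if_pos (by simpa using Nat.lt_succ_iff.mp (Finset.mem_range.mp hl))]
  have h2 := sumC j
  rw [h1, Finset.sum_range_succ]
  have h3 : (1:ℝ) ≤ 2 ^ (20 * j) := one_le_pow₀ (by norm_num)
  have h4 : ((1:ℝ) / 2 ^ 20) ^ (j + 1) ≤ 1 / 2 ^ 20 := by
    rw [pow_succ]
    have : ((1:ℝ) / 2 ^ 20) ^ j ≤ 1 := pow_le_one₀ (by norm_num) (by norm_num)
    norm_num at *
    linarith
  norm_num at *
  linarith

lemma tm_summable (n : ℤ) : Summable (fun l => ‖tm n l‖ ^ 2) := by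
  have hn : |(n : ℝ)| ≤ 2 ^ (20 * (n.natAbs) ^ 2) := by
    have h1 : |(n:ℝ)| = (n.natAbs : ℝ) := by
      rw [← Int.cast_abs, Int.abs_eq_natAbs]; simp
    rw [h1]
    have h2 : n.natAbs < 2 ^ n.natAbs := Nat.lt_two_pow_self
    have h3 : 2 ^ n.natAbs ≤ 2 ^ (20 * (n.natAbs) ^ 2) := by
      apply Nat.pow_le_pow_right (by norm_num)
      nlinarith [Nat.zero_le n.natAbs, Nat.le_self_pow (n := 2) (by norm_num) n.natAbs]
    have h4 : n.natAbs ≤ 2 ^ (20 * (n.natAbs) ^ 2) := h2.le.trans h3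
    exact_mod_cast h4
  exact Summable.of_nonneg_of_le (fun l => by positivity) (fun l => tm_le_U n _ l hn) (U_summable _)

lemma tm_mem (n : ℤ) : Memℓp (tm n) 2 := by
  rw [memℓp_gen_iff (by norm_num)]
  simpa using tm_summable n

/-- the Hilbert space -/
noncomputable abbrev HH := lp (fun _ : ℕ => ℂ) 2

/-- the cocycle -/
noncomputable def bb (n : ℤ) : HH := ⟨tm n, tm_mem n⟩

lemma norm_sq_HH (f : HH) : ‖f‖ ^ 2 = ∑' i, ‖f i‖ ^ 2 := by
  have := lp.norm_rpow_eq_tsum (p := 2) (by norm_num) f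
  simpa using this

/-- the squared length -/
noncomputable def LL (n : ℤ) : ℝ := ‖bb n‖ ^ 2

lemma LL_eq (n : ℤ) : LL n = ∑' l, ‖tm n l‖ ^ 2 := norm_sq_HH _

lemma dist_bb (m s : ℤ) : ‖bb (-m) - bb s‖ ^ 2 = LL (m + s) := by
  rw [norm_sq_HH, LL_eq]
  congr 1
  ext l
  have h1 : (bb (-m) - bb s : HH) l = tm (-m) l - tm s l := rfl
  rw [h1]
  have h2 : tm (m + s) l = - Complex.exp (Complex.I * ang m l) * (tm (-m) l - tm s l) := by
    unfold tm
    rw [ang_add, ang_neg]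
    push_cast
    rw [mul_add, Complex.exp_add]
    have h3 : Complex.exp (Complex.I * ang m l) * Complex.exp (Complex.I * -(ang m l)) = 1 := by
      rw [← Complex.exp_add]; simp
    linear_combination (2:ℂ) ^ (10 * l) * h3
  rw [h2, norm_mul, norm_neg, mul_comm Complex.I, Complex.norm_exp_ofReal_mul_I, one_mul]

lemma LL_nonneg (n : ℤ) : 0 ≤ LL n := by unfold LL; positivity

lemma LL_le (n : ℤ) (j : ℕ) (hn : |(n : ℝ)| ≤ 2 ^ (20 * j ^ 2)) : 1 + LL n ≤ 8 * 2 ^ (20 * j) := by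
  rw [LL_eq]
  have h1 : ∑' l, ‖tm n l‖ ^ 2 ≤ ∑' l, U j l :=
    (tm_summable n).tsum_le_tsum (fun l => tm_le_U n j l hn) (U_summable j)
  have h2 := U_tsum j
  have h3 : (1:ℝ) ≤ 2 ^ (20 * j) := one_le_pow₀ (by norm_num)
  linarith

lemma le_LL (n : ℤ) (j : ℕ) (h1 : (1 / 4 : ℝ) * 2 ^ (20 * j ^ 2) ≤ n)
    (h2 : (n : ℝ) ≤ (3 / 4 : ℝ) * 2 ^ (20 * j ^ 2)) : 2 ^ (20 * j) ≤ LL n := by
  rw [LL_eq]
  have h3 : ‖tm n j‖ ^ 2 ≤ ∑' l, ‖tm n l‖ ^ 2 :=
    (tm_summable n).le_tsum j (fun l _ => by positivity)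
  refine le_trans ?_ h3
  rw [norm_tm_sq]
  have h4 : ang n j / 2 = Real.pi / 2 + (ang n j / 2 - Real.pi / 2) := by ring
  have hd : (0:ℝ) < 2 ^ (20 * j ^ 2) := by positivity
  have h5 : |ang n j / 2 - Real.pi / 2| ≤ 1 := by
    have h6 : ang n j / 2 - Real.pi / 2 = Real.pi * (n / 2 ^ (20 * j ^ 2) - 1 / 2) := by
      unfold ang; ring
    have h7 : |(n : ℝ) / 2 ^ (20 * j ^ 2) - 1 / 2| ≤ 1 / 4 := by
      rw [abs_le]
      have h8 : 1 / 4 ≤ (n : ℝ) / 2 ^ (20 * j ^ 2) := by rw [le_div_iff₀ hd]; exact h1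
      have h9 : (n : ℝ) / 2 ^ (20 * j ^ 2) ≤ 3 / 4 := by rw [div_le_iff₀ hd]; exact h2
      constructor <;> linarith
    rw [h6, abs_mul, abs_of_pos Real.pi_pos]
    have := Real.pi_le_four
    nlinarith [abs_nonneg ((n : ℝ) / 2 ^ (20 * j ^ 2) - 1 / 2), Real.pi_pos]
  have h6 : Real.sin (ang n j / 2) = Real.cos (ang n j / 2 - Real.pi / 2) := by
    rw [Real.cos_sub_pi_div_two]
  have h7 : 1 / 2 ≤ Real.sin (ang n j / 2) := by
    rw [h6]
    have h8 := Real.one_sub_sq_div_two_le_cos (x := ang n j / 2 - Real.pi / 2)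
    have h9 : (ang n j / 2 - Real.pi / 2) ^ 2 ≤ 1 := by
      rw [← sq_abs]; exact pow_le_one₀ (abs_nonneg _) h5
    linarith
  have h8 : 1 ≤ (2 * Real.sin (ang n j / 2)) ^ 2 := by nlinarith
  have h9 : (0:ℝ) < 2 ^ (20 * j) := by positivity
  nlinarith

lemma tm_period (i l : ℕ) (h : l ≤ i) : tm (2 ^ (20 * i ^ 2) : ℕ) l = 0 := by
  unfold tm
  have h1 : Complex.exp (Complex.I * ang (2 ^ (20 * i ^ 2) : ℕ) l) = 1 := by
    rw [Complex.exp_eq_one_iff]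
    refine ⟨(2 ^ (20 * i ^ 2 - 20 * l ^ 2) : ℕ), ?_⟩
    have h2 : 20 * l ^ 2 ≤ 20 * i ^ 2 := by gcongr
    have h3 : ang (2 ^ (20 * i ^ 2) : ℕ) l = 2 * Real.pi * 2 ^ (20 * i ^ 2 - 20 * l ^ 2) := by
      unfold ang
      push_cast
      rw [pow_sub₀ (2:ℝ) (by norm_num) h2]
      field_simp
    rw [h3]
    push_cast
    ring
  rw [h1]; simp

/-- the return times -/
def Dn (i : ℕ) : ℕ := 2 ^ (20 * i ^ 2)

lemma LL_Dn (i : ℕ) : LL (Dn i : ℕ) ≤ 128 * (1 / 2 ^ 20) ^ i := by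
  rw [LL_eq]
  have hs := tm_summable (Dn i : ℕ)
  rw [← hs.sum_add_tsum_nat_add (i + 1)]
  have h1 : ∑ l ∈ Finset.range (i + 1), ‖tm (Dn i : ℕ) l‖ ^ 2 = 0 := by
    apply Finset.sum_eq_zero
    intro l hl
    have : tm (Dn i : ℕ) l = 0 := tm_period i l (by simpa using Nat.lt_succ_iff.mp (Finset.mem_range.mp hl))
    rw [this]; simp
  rw [h1, zero_add]
  have hn : |((Dn i : ℕ) : ℝ)| ≤ 2 ^ (20 * i ^ 2) := by
    rw [Nat.abs_cast]; simp [Dn]
  have hn' : |(((Dn i : ℕ) : ℤ) : ℝ)| ≤ 2 ^ (20 * i ^ 2) := by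
    simpa using hn
  have h2 : ∑' l, ‖tm (Dn i : ℕ) (l + (i + 1))‖ ^ 2 ≤
      ∑' l : ℕ, (64 * (1 / 2 ^ 20 : ℝ) ^ (i + 1)) * (1 / 2 ^ 20) ^ l := by
    apply Summable.tsum_le_tsum
    · intro l
      refine (norm_tm_small _ i (l + (i + 1)) hn' (by omega)).trans (le_of_eq ?_)
      rw [pow_add (1 / 2 ^ 20 : ℝ) l (i + 1)]; ring
    · exact (summable_nat_add_iff (i + 1)).mpr hs
    · exact (summable_geometric_of_lt_one (by norm_num) (by norm_num)).mul_left _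
  refine h2.trans ?_
  rw [tsum_mul_left, tsum_geometric_of_lt_one (by norm_num) (by norm_num), pow_succ]
  have h3 : (0:ℝ) ≤ (1 / 2 ^ 20 : ℝ) ^ i := by positivity
  set r := (1 / 2 ^ 20 : ℝ) ^ i with hr
  have h4 : 64 * (r * (1 / 2 ^ 20)) * (1 - 1 / 2 ^ 20)⁻¹ = (64 / (2 ^ 20 - 1)) * r := by
    norm_num; ring
  rw [h4]
  norm_num
  nlinarith

lemma norm_dist_bb (m s : ℤ) : ‖bb (-m) - bb s‖ = ‖bb (m + s)‖ := by
  have h := dist_bb m s
  unfold LL at h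
  exact (sq_eq_sq₀ (norm_nonneg _) (norm_nonneg _)).mp h

lemma bb_zero : bb 0 = 0 := by
  have h : LL 0 = 0 := by
    rw [LL_eq]
    have : ∀ l, tm 0 l = 0 := by intro l; simp [tm, ang]
    simp [this]
  unfold LL at h
  simpa using h

lemma bb_tri (n d : ℤ) : |‖bb (n + d)‖ - ‖bb n‖| ≤ ‖bb d‖ := by
  have h1 := norm_dist_bb n d
  have h2 := norm_dist_bb n 0
  have h3 := norm_dist_bb 0 d
  rw [← h1]
  rw [add_zero] at h2
  rw [zero_add] at h3
  rw [← h2, ← h3]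
  refine (abs_norm_sub_norm_le _ _).trans ?_
  have : bb (-n) - bb d - (bb (-n) - bb 0) = bb (-0) - bb d := by rw [neg_zero]; abel
  rw [this]

lemma bb_Dn_tendsto : Tendsto (fun i => ‖bb (Dn i : ℕ)‖) atTop (𝓝 0) := by
  have h1 : Tendsto (fun i => LL (Dn i : ℕ)) atTop (𝓝 0) := by
    refine squeeze_zero (fun i => LL_nonneg _) LL_Dn ?_
    have := (tendsto_pow_atTop_nhds_zero_of_lt_one (r := (1 / 2 ^ 20 : ℝ)) (by norm_num) (by norm_num)).const_mul 128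
    simpa using this
  have h2 : Tendsto (fun i => Real.sqrt (LL (Dn i : ℕ))) atTop (𝓝 0) := by
    have := h1.sqrt
    simpa using this
  refine h2.congr (fun i => ?_)
  unfold LL
  rw [Real.sqrt_sq (norm_nonneg _)]

lemma LL_return (n : ℤ) : Tendsto (fun i => LL (n + (Dn i : ℕ))) atTop (𝓝 (LL n)) := by
  have h1 : Tendsto (fun i => ‖bb (n + (Dn i : ℕ))‖) atTop (𝓝 ‖bb n‖) := by
    rw [tendsto_iff_dist_tendsto_zero]
    refine squeeze_zero (fun i => dist_nonneg) (fun i => ?_) bb_Dn_tendsto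
    rw [Real.dist_eq]
    exact bb_tri n _
  exact h1.pow 2

lemma log_two_pos' : 0 < Real.log 2 := Real.log_pos (by norm_num)

/-- the frequency -/
noncomputable def kap : ℝ := Real.pi / (20 * Real.log 2)

lemma kap_pos : 0 < kap := by
  unfold kap
  have := log_two_pos'
  have := Real.pi_pos
  positivity

lemma kap_le : kap ≤ 1 := by
  unfold kap
  have h := Real.log_two_gt_d9
  rw [div_le_one (by linarith)]
  have := Real.pi_le_four
  linarith

/-- the slowly oscillating function -/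
noncomputable def Fc (t : ℝ) : ℝ := Real.cos (kap * Real.log (1 + t))

lemma abs_cos_sub_le (a b : ℝ) : |Real.cos a - Real.cos b| ≤ |a - b| := by
  rw [Real.cos_sub_cos, abs_mul, abs_mul]
  have h1 := Real.abs_sin_le_one ((a + b) / 2)
  have h2 : |Real.sin ((a - b) / 2)| ≤ |(a - b) / 2| := Real.abs_sin_le_abs
  rw [abs_div, abs_two] at h2
  have h3 : |(-2 : ℝ)| = 2 := by norm_num
  rw [h3]
  nlinarith [abs_nonneg (Real.sin ((a + b) / 2)), abs_nonneg (Real.sin ((a - b) / 2))]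

lemma Fc_block (n : ℤ) (j : ℕ) (h1 : (1 / 4 : ℝ) * 2 ^ (20 * j ^ 2) ≤ n)
    (h2 : (n : ℝ) ≤ (3 / 4 : ℝ) * 2 ^ (20 * j ^ 2)) : 1 / 2 ≤ (-1) ^ j * Fc (LL n) := by
  have h3 := le_LL n j h1 h2
  have hn : |(n:ℝ)| ≤ 2 ^ (20 * j ^ 2) := by
    have : (0:ℝ) < 2 ^ (20 * j ^ 2) := by positivity
    rw [abs_le]; constructor <;> linarith
  have h4 := LL_le n j hn
  have hC : (0:ℝ) < 2 ^ (20 * j) := by positivity
  set u := (1 + LL n) / 2 ^ (20 * j) with hu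
  have hu1 : 1 ≤ u := by rw [hu, le_div_iff₀ hC]; linarith
  have hu2 : u ≤ 8 := by rw [hu, div_le_iff₀ hC]; linarith
  have h5 : 1 + LL n = u * 2 ^ (20 * j) := by rw [hu]; field_simp
  have h6 : kap * Real.log (1 + LL n) = kap * Real.log u + j * Real.pi := by
    rw [h5, Real.log_mul (by linarith) hC.ne', Real.log_pow]
    unfold kap
    have := log_two_pos'
    push_cast
    field_simp
  unfold Fc
  rw [h6, Real.cos_add_nat_mul_pi, ← mul_assoc, ← mul_pow]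
  norm_num
  have h7 : 0 ≤ kap * Real.log u := mul_nonneg kap_pos.le (Real.log_nonneg hu1)
  have h8 : kap * Real.log u ≤ 1 := by
    have h9 : Real.log u ≤ 3 * Real.log 2 := by
      have : Real.log u ≤ Real.log (2 ^ 3) := Real.log_le_log (by linarith) (by norm_num; linarith)
      rwa [Real.log_pow] at this
    calc kap * Real.log u ≤ kap * (3 * Real.log 2) := by
          gcongr; exact kap_pos.le
      _ = 3 * Real.pi / 20 := by
          unfold kap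
          have := log_two_pos'
          field_simp
      _ ≤ 1 := by have := Real.pi_le_four; linarith
  have h9 := Real.one_sub_sq_div_two_le_cos (x := kap * Real.log u)
  have h10 : (kap * Real.log u) ^ 2 ≤ 1 := pow_le_one₀ h7 h8
  linarith

end Pool.Agent.W747.NT
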