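import Pool.Agent.W747.NT.Count
import Pool.Agent.W747.NT.Coc

/-!
# A null transitive system which is not mean equicontinuous
-/

set_option autoImplicit false

open Filter Topology

namespace Pool.Agent.W747.NT

/-- the interval -/
abbrev II := Set.Icc (-1 : ℝ) 1

/-- the full product -/
abbrev Om := ℕ → II

noncomputable instance instOm : MetricSpace Om := PiCountable.metricSpace

lemma slow_Fc : Slow Fc := by
  refine ⟨fun a => Real.abs_cos_le_one _, fun a b _ _ => ?_⟩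
  unfold Fc
  refine (abs_cos_sub_le _ _).trans ?_
  rw [← mul_sub, abs_mul, abs_of_pos kap_pos]
  have := kap_le
  nlinarith [abs_nonneg (Real.log (1 + a) - Real.log (1 + b))]

/-- the base point -/
noncomputable def f0 : Om := fun n => ⟨Fc (LL n), by
  have := abs_le.mp (slow_Fc.1 (LL n))
  exact ⟨this.1, this.2⟩⟩

/-- the shift -/
def sh (x : Om) : Om := fun n => x (n + 1)

lemma sh_cont : Continuous sh := by
  unfold sh
  exact continuous_pi (fun n => continuous_apply (n + 1))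

lemma sh_iter (x : Om) (m n : ℕ) : (sh^[m] x) n = x (n + m) := by
  induction m generalizing x with
  | zero => rfl
  | succ m ih =>
    rw [Function.iterate_succ_apply, ih]
    unfold sh
    congr 1

/-- the orbit closure -/
def XX : Set Om := closure (Set.range fun m : ℕ => sh^[m] f0)

lemma sh_maps : Set.MapsTo sh XX XX := by
  apply Set.MapsTo.closure _ sh_cont
  rintro _ ⟨m, rfl⟩
  exact ⟨m + 1, by simp only [Function.iterate_succ_apply']⟩

/-- the map -/
def TT : XX → XX := sh_maps.restrict sh XX XX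

instance : CompactSpace XX := isCompact_iff_compactSpace.mp isClosed_closure.isCompact

lemma TT_cont : Continuous TT := sh_cont.restrict sh_maps

lemma TT_iter (x : XX) (m : ℕ) : ((TT^[m] x : XX) : Om) = sh^[m] (x : Om) := by
  induction m generalizing x with
  | zero => rfl
  | succ m ih => rw [Function.iterate_succ_apply, Function.iterate_succ_apply, ih]; rfl

lemma TT_iter_apply (x : XX) (m n : ℕ) : ((TT^[m] x : XX) : Om) n = (x : Om) (n + m) := by
  rw [TT_iter, sh_iter]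

/-- the orbit of the base point -/
noncomputable def YY (m : ℕ) : XX := ⟨sh^[m] f0, subset_closure ⟨m, rfl⟩⟩

lemma YY_apply (m n : ℕ) : (YY m : Om) n = f0 (n + m) := sh_iter _ _ _

lemma TT_YY (m n : ℕ) : TT^[n] (YY m) = YY (m + n) := by
  apply Subtype.ext
  funext t
  rw [TT_iter_apply, YY_apply, YY_apply]
  congr 1; omega

lemma dense_YY (U : Set XX) (hU : IsOpen U) (hne : U.Nonempty) : ∃ m, YY m ∈ U := by
  obtain ⟨V, hV, rfl⟩ := isOpen_induced_iff.mp hU
  obtain ⟨⟨x, hx⟩, hxV⟩ := hne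
  obtain ⟨y, hyV, ⟨m, rfl⟩⟩ := mem_closure_iff.mp hx V hV hxV
  exact ⟨m, hyV⟩

lemma YY_return (m : ℕ) : Tendsto (fun i => YY (m + Dn i)) atTop (𝓝 (YY m)) := by
  rw [tendsto_subtype_rng, tendsto_pi_nhds]
  intro t
  rw [tendsto_subtype_rng]
  simp only [YY_apply]
  have h1 : Tendsto (fun i => Fc (LL (((t + m : ℕ) : ℤ) + (Dn i : ℕ)))) atTop (𝓝 (Fc (LL ((t + m : ℕ) : ℤ)))) := by
    have hc : ContinuousAt Fc (LL ((t + m : ℕ) : ℤ)) := by
      unfold Fc
      have h0 := LL_nonneg ((t + m : ℕ) : ℤ)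
      apply Real.continuous_cos.continuousAt.comp
      apply ContinuousAt.mul continuousAt_const
      apply ContinuousAt.log (by fun_prop) (by linarith)
    exact hc.tendsto.comp (LL_return _)
  refine h1.congr (fun i => ?_)
  simp only [f0]
  congr 2
  push_cast; ring

lemma Dn_tendsto : Tendsto Dn atTop atTop := by
  refine tendsto_atTop_mono (fun i => ?_) tendsto_id
  unfold Dn
  have h2 : i < 2 ^ i := Nat.lt_two_pow_self
  have h3 : 2 ^ i ≤ 2 ^ (20 * i ^ 2) := by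
    apply Nat.pow_le_pow_right (by norm_num)
    nlinarith [Nat.zero_le i, Nat.le_self_pow (n := 2) (by norm_num) i]
  exact h2.le.trans h3

lemma TT_trans (U V : Set XX) (hU : IsOpen U) (hV : IsOpen V) (hUn : U.Nonempty) (hVn : V.Nonempty) :
    ∃ n : ℕ, 1 ≤ n ∧ (V ∩ TT^[n] ⁻¹' U).Nonempty := by
  obtain ⟨m2, h2⟩ := dense_YY U hU hUn
  obtain ⟨m1, h1⟩ := dense_YY V hV hVn
  have e1 := (YY_return m2).eventually (hU.mem_nhds h2)
  have e2 := Dn_tendsto.eventually_gt_atTop m1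
  obtain ⟨i, hi1, hi2⟩ := (e1.and e2).exists
  refine ⟨m2 + Dn i - m1, by omega, YY m1, h1, ?_⟩
  show TT^[m2 + Dn i - m1] (YY m1) ∈ U
  rw [TT_YY]
  have : m1 + (m2 + Dn i - m1) = m2 + Dn i := by omega
  rw [this]; exact hi1

/-- closeness of finitely many coordinates -/
lemma dist_lt_of_coords {ε : ℝ} (hε : 0 < ε) : ∃ t0 : ℕ, ∃ ε1 : ℝ, 0 < ε1 ∧ ∀ x y : Om,
    (∀ t < t0, dist (x t) (y t) < ε1) → dist x y < ε := by
  obtain ⟨t0, ht0⟩ := exists_pow_lt_of_lt_one (show 0 < ε / 4 by linarith) (show (1/2 : ℝ) < 1 by norm_num)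
  refine ⟨t0, ε / (2 * (t0 + 1)), by positivity, fun x y h => ?_⟩
  rw [PiCountable.dist_eq_tsum]
  have hs := PiCountable.dist_summable x y
  rw [← hs.sum_add_tsum_nat_add t0]
  have h1 : ∑ i ∈ Finset.range t0, min (2⁻¹ ^ Encodable.encode i) (dist (x i) (y i)) ≤ ε / 2 := by
    calc ∑ i ∈ Finset.range t0, min (2⁻¹ ^ Encodable.encode i) (dist (x i) (y i))
        ≤ ∑ i ∈ Finset.range t0, ε / (2 * (t0 + 1)) := by
          apply Finset.sum_le_sum
          intro i hi
          exact (min_le_right _ _).trans (h i (Finset.mem_range.mp hi)).le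
      _ = t0 * (ε / (2 * (t0 + 1))) := by simp
      _ ≤ ε / 2 := by
          rw [mul_div_assoc', div_le_div_iff₀ (by positivity) (by norm_num)]
          have : (0:ℝ) ≤ t0 := Nat.cast_nonneg _
          nlinarith
  have h2 : ∑' i, min (2⁻¹ ^ Encodable.encode (i + t0)) (dist (x (i + t0)) (y (i + t0))) ≤ 2 * (1 / 2) ^ t0 := by
    calc ∑' i, min (2⁻¹ ^ Encodable.encode (i + t0)) (dist (x (i + t0)) (y (i + t0)))
        ≤ ∑' i : ℕ, (1 / 2 : ℝ) ^ t0 * (1 / 2) ^ i := by
          apply Summable.tsum_le_tsum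
          · intro i
            refine (min_le_left _ _).trans (le_of_eq ?_)
            simp [pow_add, mul_comm]
          · exact (summable_nat_add_iff t0).mpr hs
          · exact (summable_geometric_of_lt_one (by norm_num) (by norm_num)).mul_left _
      _ = 2 * (1 / 2) ^ t0 := by
          rw [tsum_mul_left, tsum_geometric_two]; ring
  have : (2:ℝ) * (1 / 2) ^ t0 < ε / 2 := by linarith
  linarith

lemma poly_exp (A B t0 : ℕ) {δ : ℝ} (hδ : 0 < δ) :
    ∀ᶠ n : ℕ in atTop, ((A * (2 * (n * t0) + 1) ^ B : ℕ) : ℝ) ≤ Real.exp (δ * n) := by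
  have h1 := tendsto_pow_const_div_const_pow_of_one_lt B (r := Real.exp δ) (by simpa using hδ)
  have hc : (0:ℝ) < 1 / (A * (2 * t0 + 1) ^ B + 1) := by positivity
  filter_upwards [h1.eventually_lt_const hc, eventually_ge_atTop 1] with n hn hn1
  rw [mul_comm δ, Real.exp_nat_mul]
  rw [div_lt_div_iff₀ (by positivity) (by positivity), one_mul] at hn
  push_cast
  have hn1' : (1:ℝ) ≤ n := by exact_mod_cast hn1
  calc (A:ℝ) * (2 * (n * t0) + 1) ^ B ≤ A * ((2 * t0 + 1) * n) ^ B := by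
        gcongr; nlinarith [(Nat.cast_nonneg t0 : (0:ℝ) ≤ t0)]
    _ = (n:ℝ) ^ B * (A * (2 * t0 + 1) ^ B) := by rw [mul_pow]; ring
    _ ≤ (n:ℝ) ^ B * (A * (2 * t0 + 1) ^ B + 1) := by gcongr; linarith
    _ ≤ _ := hn.le

lemma TT_null (a : ℕ → ℕ) (ε : ℝ) (hε : 0 < ε) (δ : ℝ) (hδ : 0 < δ) :
    ∀ᶠ n in atTop, ∀ F : Finset XX,
      (∀ x ∈ F, ∀ y ∈ F, x ≠ y → ∃ i < n, ε ≤ dist (TT^[a i] x) (TT^[a i] y)) →
      (F.card : ℝ) ≤ Real.exp (δ * n) := by
  obtain ⟨t0, ε1, hε1, hclose⟩ := dist_lt_of_coords hε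
  obtain ⟨A, B, hAB⟩ := count (H := HH) slow_Fc (show 0 < ε1 / 3 by linarith)
  filter_upwards [poly_exp A B t0 hδ] with n hn F hF
  -- approximation by points of the orbit
  have happ : ∀ x : XX, ∃ m : ℕ, ∀ i < n, ∀ t < t0, dist ((x : Om) (t + a i)) (f0 (t + a i + m)) < ε1 / 4 := by
    intro x
    set W : Set XX := ⋂ i ∈ Finset.range n, ⋂ t ∈ Finset.range t0,
      {y : XX | dist ((x : Om) (t + a i)) ((y : Om) (t + a i)) < ε1 / 4} with hW
    have hWo : IsOpen W := by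
      apply isOpen_biInter_finset; intro i _
      apply isOpen_biInter_finset; intro t _
      apply isOpen_lt _ continuous_const
      exact continuous_const.dist ((continuous_apply (t + a i)).comp continuous_subtype_val)
    have hxW : x ∈ W := by
      simp only [hW, Set.mem_iInter, Set.mem_ofPred_eq, dist_self]
      intro i _ t _; linarith
    obtain ⟨m, hm⟩ := dense_YY W hWo ⟨x, hxW⟩
    refine ⟨m, fun i hi t ht => ?_⟩
    simp only [hW, Set.mem_iInter, Set.mem_ofPred_eq] at hm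
    have := hm i (Finset.mem_range.mpr hi) t (Finset.mem_range.mpr ht)
    rwa [YY_apply] at this
  choose m hm using happ
  -- the points
  let p : Fin (n * t0) → HH := fun k =>
    bb (((finProdFinEquiv.symm k).2 : ℕ) + a ((finProdFinEquiv.symm k).1 : ℕ) : ℕ)
  have hcard := hAB (n * t0) p XX (fun x => bb (-(m x : ℤ))) F (by
    intro x hx y hy hxy
    obtain ⟨i, hi, hd⟩ := hF x hx y hy hxy
    have h1 : ∃ t < t0, ε1 ≤ dist ((x : Om) (t + a i)) ((y : Om) (t + a i)) := by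
      by_contra hcon
      push Not at hcon
      have h2 := hclose (TT^[a i] x : XX) (TT^[a i] y : XX) (fun t ht => by
        rw [TT_iter_apply, TT_iter_apply]; exact hcon t ht)
      exact absurd hd (not_le.mpr h2)
    obtain ⟨t, ht, h2⟩ := h1
    refine ⟨finProdFinEquiv (⟨i, hi⟩, ⟨t, ht⟩), ?_⟩
    simp only [p, Equiv.symm_apply_apply]
    have key : ∀ z : XX, Fc (‖bb (-(m z : ℤ)) - bb ((t + a i : ℕ) : ℤ)‖ ^ 2) = (f0 (t + a i + m z) : ℝ) := by
      intro z
      rw [dist_bb]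
      simp only [f0]
      congr 2
      push_cast; ring
    rw [key, key]
    have h3 := hm x i hi t ht
    have h4 := hm y i hi t ht
    have h5 : dist (f0 (t + a i + m x)) (f0 (t + a i + m y)) =
        |(f0 (t + a i + m x) : ℝ) - (f0 (t + a i + m y) : ℝ)| := rfl
    rw [← h5]
    have h6 := dist_triangle4 ((x : Om) (t + a i)) (f0 (t + a i + m x)) (f0 (t + a i + m y)) ((y : Om) (t + a i))
    have h7 : dist (f0 (t + a i + m y)) ((y : Om) (t + a i)) < ε1 / 4 := by rw [dist_comm]; exact h4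
    linarith)
  calc (F.card : ℝ) ≤ ((A * (2 * (n * t0) + 1) ^ B : ℕ) : ℝ) := by exact_mod_cast hcard
    _ ≤ _ := hn

/-- middle of the `j`-th block -/
def Nm (j : ℕ) : ℕ := 2 ^ (20 * (2 * j + 1) ^ 2 - 1)

lemma Nm_eq (j : ℕ) : 2 * Nm j = Dn (2 * j + 1) := by
  unfold Nm Dn
  have h0 : 0 < (2 * j + 1) ^ 2 := by positivity
  have h : 1 ≤ 20 * (2 * j + 1) ^ 2 := by omega
  rw [← pow_succ', Nat.sub_add_cancel h]

lemma f0_block (n j : ℕ) (h1 : Dn j ≤ 4 * n) (h2 : 4 * n ≤ 3 * Dn j) :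
    1 / 2 ≤ (-1 : ℝ) ^ j * (f0 n : ℝ) := by
  have h1' : ((Dn j : ℕ) : ℝ) ≤ 4 * n := by exact_mod_cast h1
  have h2' : (4 : ℝ) * n ≤ 3 * (Dn j : ℕ) := by exact_mod_cast h2
  have hD : ((Dn j : ℕ) : ℝ) = 2 ^ (20 * j ^ 2) := by simp [Dn]
  rw [hD] at h1' h2'
  have := Fc_block (n : ℤ) j (by push_cast; linarith) (by push_cast; linarith)
  simpa [f0] using this

lemma exists_low : ∃ z : XX, (∀ t, ((z : Om) t : ℝ) ≤ -(1 / 2)) ∧ ∀ δ : ℝ, 0 < δ → ∃ m, dist (YY m) z < δ := by
  obtain ⟨z, φ, hφ, hz⟩ := CompactSpace.tendsto_subseq (fun j => YY (Nm j))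
  refine ⟨z, fun t => ?_, fun δ hδ => ?_⟩
  · have h1 : Tendsto (fun j => ((YY (Nm (φ j)) : Om) t : ℝ)) atTop (𝓝 ((z : Om) t : ℝ)) := by
      have hc : Continuous fun y : XX => ((y : Om) t : ℝ) :=
        continuous_subtype_val.comp ((continuous_apply t).comp continuous_subtype_val)
      exact (hc.tendsto z).comp hz
    refine le_of_tendsto h1 ?_
    have h2 : Tendsto (fun j => Dn (2 * φ j + 1)) atTop atTop :=
      Dn_tendsto.comp (tendsto_atTop_mono (fun j => by omega) hφ.tendsto_atTop)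
    filter_upwards [h2.eventually_ge_atTop (4 * t)] with j hj
    rw [YY_apply]
    have h3 := Nm_eq (φ j)
    have h4 := f0_block (t + Nm (φ j)) (2 * φ j + 1) (by omega) (by omega)
    rw [pow_succ, pow_mul] at h4
    norm_num at h4
    linarith
  · have := (Metric.tendsto_nhds.mp hz δ hδ).exists
    obtain ⟨j, hj⟩ := this
    exact ⟨Nm (φ j), hj⟩

lemma four_dvd_Dn (j : ℕ) : 4 ∣ Dn (2 * j + 2) := by
  unfold Dn
  have h : (4:ℕ) = 2 ^ 2 := by norm_num
  rw [h]
  apply pow_dvd_pow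
  have h0 : 0 < (2 * j + 2) ^ 2 := by positivity
  omega

lemma TT_not_mean : ¬ ∀ ε : ℝ, 0 < ε → ∃ δ : ℝ, 0 < δ ∧ ∀ x y : XX, dist x y < δ →
    ∀ᶠ n in atTop, (∑ i ∈ Finset.range n, dist (TT^[i] x) (TT^[i] y)) / (n : ℝ) < ε := by
  intro h
  obtain ⟨δ, hδ, hδ'⟩ := h (1 / 10) (by norm_num)
  obtain ⟨z, hz, hz'⟩ := exists_low
  obtain ⟨m, hm⟩ := hz' δ hδ
  have h1 := hδ' (YY m) z hm
  have h2 : Tendsto (fun j => Dn (2 * j + 2)) atTop atTop :=
    Dn_tendsto.comp (tendsto_atTop_mono (fun j => by simp only [id]; omega) tendsto_id)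
  obtain ⟨j, hj1, hj2⟩ := ((h2.eventually h1).and (h2.eventually_ge_atTop (8 * m + 8))).exists
  obtain ⟨N, hN⟩ : ∃ N, N = Dn (2 * j + 2) := ⟨_, rfl⟩
  rw [← hN] at hj1 hj2
  have h4N : 4 ∣ N := by rw [hN]; exact four_dvd_Dn j
  obtain ⟨q, hq⟩ := h4N
  have hlow : ∀ i ∈ Finset.Ico q (2 * q), (1:ℝ) ≤ dist (TT^[i] (YY m)) (TT^[i] z) := by
    intro i hi
    rw [Finset.mem_Ico] at hi
    have h3 := f0_block (m + i) (2 * j + 2) (by rw [← hN]; omega) (by rw [← hN]; omega)
    have h3' : 1 / 2 ≤ (f0 (m + i) : ℝ) := by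
      have : (-1 : ℝ) ^ (2 * j + 2) = 1 := by
        rw [show 2 * j + 2 = 2 * (j + 1) by ring, pow_mul]; norm_num
      rw [this, one_mul] at h3; exact h3
    have h4 := PiCountable.min_dist_le_dist_pi (TT^[i] (YY m) : XX).1 (TT^[i] z : XX).1 0
    have h5 : dist (TT^[i] (YY m)) (TT^[i] z) = dist (TT^[i] (YY m) : XX).1 (TT^[i] z : XX).1 := rfl
    rw [h5]
    refine le_trans ?_ h4
    rw [le_min_iff]
    refine ⟨by simp, ?_⟩
    rw [TT_iter_apply, TT_iter_apply, YY_apply]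
    have h6 : dist (f0 (0 + i + m)) ((z : Om) (0 + i)) = |(f0 (0 + i + m) : ℝ) - ((z : Om) (0 + i) : ℝ)| := rfl
    rw [h6]
    have h7 := hz (0 + i)
    have h8 : 0 + i + m = m + i := by omega
    rw [h8]
    exact le_trans (by linarith) (le_abs_self _)
  have hsum : (q : ℝ) ≤ ∑ i ∈ Finset.range N, dist (TT^[i] (YY m)) (TT^[i] z) := by
    calc (q : ℝ) = ∑ i ∈ Finset.Ico q (2 * q), (1:ℝ) := by
          simp [two_mul]
      _ ≤ ∑ i ∈ Finset.Ico q (2 * q), dist (TT^[i] (YY m)) (TT^[i] z) := Finset.sum_le_sum hlow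
      _ ≤ _ := by
          apply Finset.sum_le_sum_of_subset_of_nonneg
          · intro i hi
            rw [Finset.mem_Ico] at hi
            rw [Finset.mem_range]; omega
          · intro i _ _; exact dist_nonneg
  have hq0 : 0 < q := by omega
  have hNr : (N : ℝ) = 4 * q := by exact_mod_cast hq
  rw [div_lt_iff₀ (by rw [hNr]; have : (0:ℝ) < q := by exact_mod_cast hq0
                      linarith)] at hj1
  rw [hNr] at hj1
  have : (0:ℝ) < q := by exact_mod_cast hq0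
  linarith

end Pool.Agent.W747.NT
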