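import Mathlib

/-!
# Counting the profiles of slowly oscillating functions of the distance in a Hilbert space
-/

set_option autoImplicit false

open Filter Topology

namespace Pool.Agent.W747.NT

variable {H : Type*} [NormedAddCommGroup H] [InnerProductSpace ℝ H]

/-- value of a letter -/
noncomputable def lett {ι : Type*} (w : ι → H) (st : ℝ) : Option (ι × Bool) → H
  | none => 0
  | some (i, true) => st • w i
  | some (i, false) => (-st) • w i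

/-- value of a word -/
noncomputable def word {ι : Type*} (w : ι → H) (st : ℝ) {n : ℕ} (g : Fin n → Option (ι × Bool)) : H :=
  ∑ t, lett w st (g t)

lemma word_snoc {ι : Type*} (w : ι → H) (st : ℝ) {n : ℕ} (g : Fin n → Option (ι × Bool))
    (a : Option (ι × Bool)) :
    word w st (Fin.snoc (α := fun _ => Option (ι × Bool)) g a) = word w st g + lett w st a := by
  unfold word
  rw [Fin.sum_univ_castSucc]
  simp [Fin.snoc_castSucc, Fin.snoc_last]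

/-- greedy coding -/
lemma greedy_aux {ι : Type*} (w : ι → H) (x : H) (θ β : ℝ) (hθ : 0 < θ) (hβ : 0 < β) (n : ℕ) :
    ∃ g : Fin n → Option (ι × Bool),
      (∀ i, θ * ‖w i‖ < ‖x‖ → |inner ℝ (x - word w (β * θ ^ 2) g) (w i)| ≤ β * ‖x‖ ^ 2) ∨
      ‖x - word w (β * θ ^ 2) g‖ ^ 2 ≤ ‖x‖ ^ 2 * (1 - n * (β * θ) ^ 2) := by
  induction n with
  | zero =>
    refine ⟨fun t => none, Or.inr ?_⟩
    simp [word]
  | succ n ih =>
    obtain ⟨g, hg⟩ := ih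
    by_cases hgood : ∀ i, θ * ‖w i‖ < ‖x‖ →
        |inner ℝ (x - word w (β * θ ^ 2) g) (w i)| ≤ β * ‖x‖ ^ 2
    · refine ⟨Fin.snoc (α := fun _ => Option (ι × Bool)) g none, Or.inl ?_⟩
      rw [word_snoc]
      simpa [lett] using hgood
    · have hpot := hg.resolve_left hgood
      push Not at hgood
      obtain ⟨i, hi1, hi2⟩ := hgood
      set e := x - word w (β * θ ^ 2) g with he
      set st := β * θ ^ 2 with hst
      have hst0 : 0 < st := by positivity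
      -- the norm of `w i`
      have hw : θ ^ 2 * ‖w i‖ ^ 2 ≤ ‖x‖ ^ 2 := by
        have h0 : 0 ≤ θ * ‖w i‖ := by positivity
        nlinarith [hi1.le]
      have key : ∀ s : ℝ, s ^ 2 = st ^ 2 → st * (β * ‖x‖ ^ 2) ≤ s * inner ℝ e (w i) →
          ‖e - s • w i‖ ^ 2 ≤ ‖x‖ ^ 2 * (1 - (n + 1 : ℕ) * (β * θ) ^ 2) := by
        intro s hs2 hs
        have h1 : ‖e - s • w i‖ ^ 2 = ‖e‖ ^ 2 - 2 * (s * inner ℝ e (w i)) + s ^ 2 * ‖w i‖ ^ 2 := by
          rw [norm_sub_sq_real, inner_smul_right, norm_smul]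
          rw [mul_pow, Real.norm_eq_abs, sq_abs]
        rw [h1, hs2]
        have h2 : st ^ 2 * ‖w i‖ ^ 2 ≤ β ^ 2 * θ ^ 2 * ‖x‖ ^ 2 := by
          have : st ^ 2 * ‖w i‖ ^ 2 = β ^ 2 * θ ^ 2 * (θ ^ 2 * ‖w i‖ ^ 2) := by rw [hst]; ring
          rw [this]
          gcongr
        have h3 : st * (β * ‖x‖ ^ 2) = β ^ 2 * θ ^ 2 * ‖x‖ ^ 2 := by rw [hst]; ring
        push_cast
        nlinarith [h2, h3, hs, hpot]
      rcases le_total 0 (inner ℝ e (w i)) with hpos | hneg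
      · rw [abs_of_nonneg hpos] at hi2
        refine ⟨Fin.snoc (α := fun _ => Option (ι × Bool)) g (some (i, true)), Or.inr ?_⟩
        rw [word_snoc]
        have : x - (word w st g + lett w st (some (i, true))) = e - st • w i := by
          simp only [lett, he]; abel
        rw [this]
        apply key st rfl
        exact mul_le_mul_of_nonneg_left hi2.le hst0.le
      · rw [abs_of_nonpos hneg] at hi2
        refine ⟨Fin.snoc (α := fun _ => Option (ι × Bool)) g (some (i, false)), Or.inr ?_⟩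
        rw [word_snoc]
        have : x - (word w st g + lett w st (some (i, false))) = e - (-st) • w i := by
          simp only [lett, he]; abel
        rw [this]
        apply key (-st) (by ring)
        have := mul_le_mul_of_nonneg_left hi2.le hst0.le
        linarith

/-- greedy coding, final form -/
lemma greedy {ι : Type*} (w : ι → H) (x : H) (θ β : ℝ) (hθ : 0 < θ) (hβ : 0 < β) (T : ℕ)
    (hT : 1 < T * (β * θ) ^ 2) :
    ∃ g : Fin T → Option (ι × Bool),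
      (∀ i, θ * ‖w i‖ < ‖x‖ → |inner ℝ (x - word w (β * θ ^ 2) g) (w i)| ≤ β * ‖x‖ ^ 2) := by
  obtain ⟨g, hg⟩ := greedy_aux w x θ β hθ hβ T
  refine ⟨g, ?_⟩
  rcases hg with hg | hg
  · exact hg
  · intro i hi
    exfalso
    have hx : 0 < ‖x‖ := lt_of_le_of_lt (by positivity) hi
    have h1 : ‖x‖ ^ 2 * (1 - T * (β * θ) ^ 2) < 0 := by
      apply mul_neg_of_pos_of_neg
      · positivity
      · linarith
    have h2 : 0 ≤ ‖x - word w (β * θ ^ 2) g‖ ^ 2 := by positivity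
    linarith

lemma logclose {a b τ : ℝ} (ha : 0 ≤ a) (hb : 0 ≤ b) (h : |a - b| ≤ τ * b) (hτ : τ ≤ 1 / 2)
    (hτ0 : 0 ≤ τ) :
    |Real.log (1 + a) - Real.log (1 + b)| ≤ 2 * τ := by
  have hb1 : 0 < 1 + b := by linarith
  have ha1 : 0 < 1 + a := by linarith
  obtain ⟨h1, h2⟩ := abs_le.mp h
  rw [← Real.log_div ha1.ne' hb1.ne', abs_le]
  constructor
  · have h3 := Real.log_le_sub_one_of_pos (x := ((1 + a) / (1 + b))⁻¹) (by positivity)
    rw [Real.log_inv, inv_div] at h3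
    have h4 : (1 + b) / (1 + a) - 1 ≤ 2 * τ := by
      rw [div_sub_one ha1.ne', div_le_iff₀ ha1]
      have : b * (1 - τ) ≤ a := by linarith
      nlinarith
    linarith
  · have h3 := Real.log_le_sub_one_of_pos (x := ((1 + a) / (1 + b))) (by positivity)
    have h4 : (1 + a) / (1 + b) - 1 ≤ 2 * τ := by
      rw [div_sub_one hb1.ne', div_le_iff₀ hb1]
      nlinarith
    linarith

/-- slowly oscillating functions -/
def Slow (F : ℝ → ℝ) : Prop :=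
  (∀ a, |F a| ≤ 1) ∧
  ∀ a b, 0 ≤ a → 0 ≤ b → |F a - F b| ≤ |Real.log (1 + a) - Real.log (1 + b)|

lemma Slow.close {F : ℝ → ℝ} (hF : Slow F) {a b τ : ℝ} (ha : 0 ≤ a) (hb : 0 ≤ b)
    (h : |a - b| ≤ τ * b) (hτ : τ ≤ 1 / 2) (hτ0 : 0 ≤ τ) : |F a - F b| ≤ 2 * τ :=
  (hF.2 a b ha hb).trans (logclose ha hb h hτ hτ0)

lemma far_close {F : ℝ → ℝ} (hF : Slow F) {v w : H} {c : ℝ} (hc0 : 0 ≤ c) (hc : 2 * c + c ^ 2 ≤ 1 / 2)
    (h : ‖v‖ ≤ c * ‖w‖) : |F (‖v - w‖ ^ 2) - F (‖w‖ ^ 2)| ≤ 2 * (2 * c + c ^ 2) := by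
  apply hF.close (by positivity) (by positivity) _ hc (by positivity)
  rw [norm_sub_sq_real]
  have h1 : |inner ℝ v w| ≤ ‖v‖ * ‖w‖ := abs_real_inner_le_norm v w
  have h2 : ‖v‖ * ‖w‖ ≤ c * ‖w‖ ^ 2 := by nlinarith [norm_nonneg w]
  have h3 : ‖v‖ ^ 2 ≤ c ^ 2 * ‖w‖ ^ 2 := by
    have := norm_nonneg v
    have h4 : ‖v‖ ^ 2 ≤ (c * ‖w‖) ^ 2 := by gcongr
    linarith [mul_pow c ‖w‖ 2]
  obtain ⟨h5, h6⟩ := abs_le.mp h1
  have h7 : 0 ≤ ‖v‖ ^ 2 := by positivity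
  rw [abs_le]
  constructor <;> nlinarith [sq_nonneg ‖w‖, mul_nonneg (sq_nonneg c) (sq_nonneg ‖w‖)]

/-- the relation between a point and its code -/
def Rel {ι : Type*} (p : ι → H) (F : ℝ → ℝ) (θ : ℝ) {K1 K2 T : ℕ} (x : H)
    (i0 i1 : ι) (o : Option (ι × Fin K1)) (g : Fin T → Option (ι × Bool)) (v : Fin K2) : Prop :=
  (∀ i, ‖x - p i0‖ ≤ ‖x - p i‖) ∧
  (‖p i1 - p i0‖ ≤ θ * ‖x - p i0‖ ∧ ∀ i, ‖p i - p i0‖ ≤ θ * ‖x - p i0‖ → ‖p i - p i0‖ ≤ ‖p i1 - p i0‖) ∧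
  (o = none → ∀ i, ‖p i - p i0‖ ≤ θ * ‖x - p i0‖ ∨ ‖x - p i0‖ ≤ θ * ‖p i - p i0‖) ∧
  (∀ i2 n, o = some (i2, n) → θ * ‖x - p i0‖ < ‖p i2 - p i0‖ ∧ θ * ‖p i2 - p i0‖ < ‖x - p i0‖ ∧
    ⌊‖x - p i0‖ ^ 2 / (θ ^ 3 * ‖p i2 - p i0‖ ^ 2)⌋₊ = (n : ℕ)) ∧
  (∀ i, θ * ‖p i - p i0‖ < ‖x - p i0‖ →
    |inner ℝ ((x - p i0) - word (fun i => p i - p i0) (θ / 6 * θ ^ 2) g) (p i - p i0)|
      ≤ θ / 6 * ‖x - p i0‖ ^ 2) ∧
  ⌊(F (‖x - p i0‖ ^ 2) + 1) / θ⌋₊ = (v : ℕ)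

lemma floor_close {a b θ : ℝ} (hθ : 0 < θ) (ha : 0 ≤ a) (hb : 0 ≤ b) (h : ⌊a / θ⌋₊ = ⌊b / θ⌋₊) :
    |a - b| ≤ θ := by
  have h1 := Nat.floor_le (a := a / θ) (by positivity)
  have h2 := Nat.lt_floor_add_one (a / θ)
  have h3 := Nat.floor_le (a := b / θ) (by positivity)
  have h4 := Nat.lt_floor_add_one (b / θ)
  rw [h] at h1 h2
  rw [le_div_iff₀ hθ] at h1 h3
  rw [div_lt_iff₀ hθ] at h2 h4
  rw [abs_le]
  constructor <;> nlinarith

lemma compare {ι : Type*} {p : ι → H} {F : ℝ → ℝ} (hF : Slow F) {θ : ℝ} (hθ : 0 < θ)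
    (hθ1 : θ ≤ 1 / 16) {K1 K2 T : ℕ} {x y : H}
    {i0 i1 : ι} {o : Option (ι × Fin K1)} {g : Fin T → Option (ι × Bool)} {v : Fin K2}
    (hx : Rel p F θ x i0 i1 o g v) (hy : Rel p F θ y i0 i1 o g v) (i : ι) :
    |F (‖x - p i‖ ^ 2) - F (‖y - p i‖ ^ 2)| ≤ 22 * θ := by
  obtain ⟨hx1, ⟨hx2, hx2'⟩, hx3, hx4, hx5, hx6⟩ := hx
  obtain ⟨hy1, ⟨hy2, hy2'⟩, hy3, hy4, hy5, hy6⟩ := hy
  have hxe : x - p i = (x - p i0) - (p i - p i0) := by abel
  have hye : y - p i = (y - p i0) - (p i - p i0) := by abel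
  -- far
  have far : ∀ z : H, ∀ c : ℝ, 0 ≤ c → c ≤ 2 * θ → ‖z - p i0‖ ≤ c * ‖p i - p i0‖ →
      |F (‖z - p i‖ ^ 2) - F (‖p i - p i0‖ ^ 2)| ≤ 10 * θ := by
    intro z c hc0 hc hz
    have hze : z - p i = (z - p i0) - (p i - p i0) := by abel
    have h := far_close hF (v := z - p i0) (w := p i - p i0) (c := 2 * θ) (by positivity)
      (by nlinarith) (hz.trans (by gcongr))
    rw [hze]
    refine h.trans ?_
    nlinarith
  have near : ∀ z : H, ‖p i - p i0‖ ≤ θ * ‖z - p i0‖ →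
      |F (‖z - p i‖ ^ 2) - F (‖z - p i0‖ ^ 2)| ≤ 5 * θ := by
    intro z hz
    have h := far_close hF (v := p i - p i0) (w := z - p i0) (c := θ) (by positivity)
      (by nlinarith) hz
    have hze : ‖z - p i‖ = ‖(p i - p i0) - (z - p i0)‖ := by
      rw [← norm_neg]; congr 1; abel
    rw [hze]
    refine h.trans ?_
    nlinarith
  match o, hx3, hx4, hy3, hy4 with
  | none, hx3, hx4, hy3, hy4 =>
    by_cases hnear : ‖p i - p i0‖ ≤ ‖p i1 - p i0‖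
    · have h1 := near x (hnear.trans hx2)
      have h2 := near y (hnear.trans hy2)
      have h3 : |F (‖x - p i0‖ ^ 2) - F (‖y - p i0‖ ^ 2)| ≤ θ := by
        have h4 := floor_close hθ (a := F (‖x - p i0‖ ^ 2) + 1) (b := F (‖y - p i0‖ ^ 2) + 1)
          (by have := (abs_le.mp (hF.1 (‖x - p i0‖ ^ 2))).1; linarith)
          (by have := (abs_le.mp (hF.1 (‖y - p i0‖ ^ 2))).1; linarith) (hx6.trans hy6.symm)
        simpa using h4
      rw [abs_le] at *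
      constructor <;> linarith [h1.1, h1.2, h2.1, h2.2, h3.1, h3.2]
    · have hfx : ‖x - p i0‖ ≤ θ * ‖p i - p i0‖ :=
        (hx3 rfl i).resolve_left (fun h => hnear (hx2' i h))
      have hfy : ‖y - p i0‖ ≤ θ * ‖p i - p i0‖ :=
        (hy3 rfl i).resolve_left (fun h => hnear (hy2' i h))
      have h1 := far x θ hθ.le (by linarith) hfx
      have h2 := far y θ hθ.le (by linarith) hfy
      rw [abs_le] at *
      constructor <;> linarith [h1.1, h1.2, h2.1, h2.2]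
  | some (i2, n), hx3, hx4, hy3, hy4 =>
    obtain ⟨a1, a2, a3⟩ := hx4 i2 n rfl
    obtain ⟨b1, b2, b3⟩ := hy4 i2 n rfl
    have hD : 0 < ‖p i2 - p i0‖ := lt_of_le_of_lt (by positivity) a1
    have hdist := floor_close (θ := θ ^ 3 * ‖p i2 - p i0‖ ^ 2) (by positivity)
      (a := ‖x - p i0‖ ^ 2) (b := ‖y - p i0‖ ^ 2) (by positivity) (by positivity) (a3.trans b3.symm)
    have hxx : θ ^ 2 * ‖p i2 - p i0‖ ^ 2 ≤ ‖x - p i0‖ ^ 2 := by
      have : (θ * ‖p i2 - p i0‖) ^ 2 ≤ ‖x - p i0‖ ^ 2 := by gcongr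
      linarith [mul_pow θ ‖p i2 - p i0‖ 2]
    have hyy : θ ^ 2 * ‖p i2 - p i0‖ ^ 2 ≤ ‖y - p i0‖ ^ 2 := by
      have : (θ * ‖p i2 - p i0‖) ^ 2 ≤ ‖y - p i0‖ ^ 2 := by gcongr
      linarith [mul_pow θ ‖p i2 - p i0‖ 2]
    have hdx : |‖x - p i0‖ ^ 2 - ‖y - p i0‖ ^ 2| ≤ θ * ‖x - p i0‖ ^ 2 := by
      refine hdist.trans ?_
      have : θ ^ 3 * ‖p i2 - p i0‖ ^ 2 = θ * (θ ^ 2 * ‖p i2 - p i0‖ ^ 2) := by ring
      rw [this]; gcongr
    have hdy : |‖x - p i0‖ ^ 2 - ‖y - p i0‖ ^ 2| ≤ θ * ‖y - p i0‖ ^ 2 := by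
      refine hdist.trans ?_
      have : θ ^ 3 * ‖p i2 - p i0‖ ^ 2 = θ * (θ ^ 2 * ‖p i2 - p i0‖ ^ 2) := by ring
      rw [this]; gcongr
    obtain ⟨c1, c2⟩ := abs_le.mp hdx
    obtain ⟨c3, c4⟩ := abs_le.mp hdy
    have hxy4 : ‖x - p i0‖ ≤ 2 * ‖y - p i0‖ := by
      have : ‖x - p i0‖ ^ 2 ≤ (2 * ‖y - p i0‖) ^ 2 := by nlinarith [sq_nonneg ‖y - p i0‖]
      exact le_of_sq_le_sq this (by positivity)
    have hyx4 : ‖y - p i0‖ ≤ 2 * ‖x - p i0‖ := by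
      have : ‖y - p i0‖ ^ 2 ≤ (2 * ‖x - p i0‖) ^ 2 := by nlinarith [sq_nonneg ‖x - p i0‖]
      exact le_of_sq_le_sq this (by positivity)
    by_cases hfx : ‖x - p i0‖ ≤ θ * ‖p i - p i0‖
    · have h1 := far x θ hθ.le (by linarith) hfx
      have h2 := far y (2 * θ) (by linarith) le_rfl (by linarith)
      rw [abs_le] at *
      constructor <;> linarith [h1.1, h1.2, h2.1, h2.2]
    by_cases hfy : ‖y - p i0‖ ≤ θ * ‖p i - p i0‖
    · have h1 := far y θ hθ.le (by linarith) hfy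
      have h2 := far x (2 * θ) (by linarith) le_rfl (by linarith)
      rw [abs_le] at *
      constructor <;> linarith [h1.1, h1.2, h2.1, h2.2]
    push Not at hfx hfy
    have hgx := hx5 i hfx
    have hgy := hy5 i hfy
    set z := word (fun i => p i - p i0) (θ / 6 * θ ^ 2) g with hz
    have hin : |inner ℝ (x - p i0) (p i - p i0) - inner ℝ (y - p i0) (p i - p i0)| ≤
        θ / 6 * (‖x - p i0‖ ^ 2 + ‖y - p i0‖ ^ 2) := by
      rw [inner_sub_left] at hgx hgy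
      rw [abs_le] at *
      constructor <;> linarith [hgx.1, hgx.2, hgy.1, hgy.2]
    have hrx : ‖x - p i‖ ^ 2 = ‖x - p i0‖ ^ 2 - 2 * inner ℝ (x - p i0) (p i - p i0) + ‖p i - p i0‖ ^ 2 := by
      rw [hxe, norm_sub_sq_real]
    have hry : ‖y - p i‖ ^ 2 = ‖y - p i0‖ ^ 2 - 2 * inner ℝ (y - p i0) (p i - p i0) + ‖p i - p i0‖ ^ 2 := by
      rw [hye, norm_sub_sq_real]
    have hny : ‖y - p i0‖ ^ 2 ≤ ‖y - p i‖ ^ 2 := by
      have := hy1 i; gcongr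
    have hfin : |‖x - p i‖ ^ 2 - ‖y - p i‖ ^ 2| ≤ (2 * θ) * ‖y - p i‖ ^ 2 := by
      have h6 : ‖x - p i0‖ ^ 2 + ‖y - p i0‖ ^ 2 ≤ 3 * ‖y - p i0‖ ^ 2 := by nlinarith [sq_nonneg ‖y - p i0‖]
      have h7 : θ / 6 * (‖x - p i0‖ ^ 2 + ‖y - p i0‖ ^ 2) ≤ θ / 6 * (3 * ‖y - p i0‖ ^ 2) := by gcongr
      have h8 : (2 * θ) * ‖y - p i0‖ ^ 2 ≤ (2 * θ) * ‖y - p i‖ ^ 2 := by gcongr
      rw [hrx, hry]
      rw [hrx, hry] at *
      obtain ⟨e1, e2⟩ := abs_le.mp hin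
      rw [abs_le]
      constructor <;> linarith
    have := hF.close (by positivity) (by positivity) hfin (by linarith) (by linarith)
    linarith

lemma exists_code {ι : Type*} [Finite ι] [Nonempty ι] (p : ι → H) {F : ℝ → ℝ} (hF : Slow F) {θ : ℝ}
    (hθ : 0 < θ) {K1 K2 T : ℕ} (hK1 : 1 / θ ^ 5 < K1) (hK2 : 2 / θ < K2)
    (hT : 1 < T * (θ / 6 * θ) ^ 2) (x : H) :
    ∃ c : ι × ι × Option (ι × Fin K1) × (Fin T → Option (ι × Bool)) × Fin K2,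
      Rel p F θ x c.1 c.2.1 c.2.2.1 c.2.2.2.1 c.2.2.2.2 := by
  classical
  haveI := Fintype.ofFinite ι
  obtain ⟨i0, hi0⟩ := Finite.exists_min (fun i => ‖x - p i‖)
  obtain ⟨i1, hi1, hi1'⟩ := Finset.exists_max_image
    (Finset.univ.filter fun i => ‖p i - p i0‖ ≤ θ * ‖x - p i0‖) (fun i => ‖p i - p i0‖)
    ⟨i0, by simp; positivity⟩
  obtain ⟨g, hg⟩ := greedy (fun i => p i - p i0) (x - p i0) θ (θ / 6) hθ (by positivity) T hT
  have hv : ⌊(F (‖x - p i0‖ ^ 2) + 1) / θ⌋₊ < K2 := by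
    have h1 : (F (‖x - p i0‖ ^ 2) + 1) / θ ≤ 2 / θ := by
      have := (abs_le.mp (hF.1 (‖x - p i0‖ ^ 2))).2
      gcongr; linarith
    rw [Nat.floor_lt' (by rintro rfl; have : (0:ℝ) < 2 / θ := by positivity
                          simp at hK2; linarith)]
    linarith
  by_cases h : ∃ i2, θ * ‖x - p i0‖ < ‖p i2 - p i0‖ ∧ θ * ‖p i2 - p i0‖ < ‖x - p i0‖
  · obtain ⟨i2, h1, h2⟩ := h
    have hD : 0 < ‖p i2 - p i0‖ := lt_of_le_of_lt (by positivity) h1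
    have hn : ⌊‖x - p i0‖ ^ 2 / (θ ^ 3 * ‖p i2 - p i0‖ ^ 2)⌋₊ < K1 := by
      have h3 : ‖x - p i0‖ ^ 2 / (θ ^ 3 * ‖p i2 - p i0‖ ^ 2) ≤ 1 / θ ^ 5 := by
        rw [div_le_div_iff₀ (by positivity) (by positivity)]
        have h4 : (θ * ‖x - p i0‖) ^ 2 ≤ ‖p i2 - p i0‖ ^ 2 := by gcongr
        have h5 : ‖x - p i0‖ ^ 2 * θ ^ 5 = θ ^ 3 * (θ * ‖x - p i0‖) ^ 2 := by ring
        rw [h5, one_mul]; gcongr
      rw [Nat.floor_lt' (by rintro rfl; have : (0:ℝ) < 1 / θ ^ 5 := by positivity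
                            simp only [CharP.cast_eq_zero] at hK1; linarith)]
      linarith
    refine ⟨⟨i0, i1, some (i2, ⟨_, hn⟩), g, ⟨_, hv⟩⟩, hi0, ⟨?_, ?_⟩, ?_, ?_, hg, rfl⟩
    · simpa using hi1
    · intro i hi; exact hi1' i (by simpa using hi)
    · intro h'; simp at h'
    · intro i2' n' h'
      simp only [Option.some.injEq, Prod.mk.injEq] at h'
      obtain ⟨rfl, rfl⟩ := h'
      exact ⟨h1, h2, rfl⟩
  · push Not at h
    refine ⟨⟨i0, i1, none, g, ⟨_, hv⟩⟩, hi0, ⟨?_, ?_⟩, ?_, ?_, hg, rfl⟩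
    · simpa using hi1
    · intro i hi; exact hi1' i (by simpa using hi)
    · intro _ i
      by_cases h3 : ‖p i - p i0‖ ≤ θ * ‖x - p i0‖
      · exact Or.inl h3
      · exact Or.inr (h i (not_le.mp h3))
    · intro i2' n' h'; simp at h'

lemma count_aux {ι κ : Type*} [Fintype ι] [Nonempty ι] (p : ι → H) {F : ℝ → ℝ} (hF : Slow F) {θ : ℝ}
    (hθ : 0 < θ) (hθ1 : θ ≤ 1 / 16) {K1 K2 T : ℕ} (hK1 : 1 / θ ^ 5 < K1) (hK2 : 2 / θ < K2)
    (hT : 1 < T * (θ / 6 * θ) ^ 2) (q : κ → H) (S : Finset κ)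
    (hS : ∀ a ∈ S, ∀ b ∈ S, a ≠ b → ∃ i, 22 * θ < |F (‖q a - p i‖ ^ 2) - F (‖q b - p i‖ ^ 2)|) :
    S.card ≤ (K1 + 1) * K2 * (2 * Fintype.card ι + 1) ^ (T + 3) := by
  classical
  choose c hc using fun a => exists_code p hF hθ hK1 hK2 hT (q a)
  have hinj : Set.InjOn c (S : Set κ) := by
    intro a ha b hb hab
    by_contra hne
    obtain ⟨i, hi⟩ := hS a ha b hb hne
    have h1 := hc a
    have h2 := hc b
    rw [← hab] at h2
    have := compare hF hθ hθ1 h1 h2 i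
    linarith
  have h1 : S.card ≤ Fintype.card (ι × ι × Option (ι × Fin K1) × (Fin T → Option (ι × Bool)) × Fin K2) := by
    have := Finset.card_le_card_of_injOn (s := S) (t := Finset.univ) c (by simp) hinj
    simpa using this
  refine h1.trans ?_
  simp only [Fintype.card_prod, Fintype.card_option, Fintype.card_fin, Fintype.card_pi,
    Fintype.card_bool, Finset.prod_const, Finset.card_univ]
  set k := Fintype.card ι
  have e1 : k ≤ 2 * k + 1 := by omega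
  have e2 : k * K1 + 1 ≤ (K1 + 1) * (2 * k + 1) := by nlinarith
  have e3 : k * 2 + 1 = 2 * k + 1 := by ring
  rw [e3]
  calc k * (k * ((k * K1 + 1) * ((2 * k + 1) ^ T * K2)))
      ≤ (2 * k + 1) * ((2 * k + 1) * (((K1 + 1) * (2 * k + 1)) * ((2 * k + 1) ^ T * K2))) := by gcongr
    _ = (K1 + 1) * K2 * (2 * k + 1) ^ (T + 3) := by ring

/-- **Counting lemma.** -/
theorem count {F : ℝ → ℝ} (hF : Slow F) {ε : ℝ} (hε : 0 < ε) :
    ∃ A B : ℕ, ∀ (k : ℕ) (p : Fin k → H) (κ : Type) (q : κ → H) (S : Finset κ),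
      (∀ a ∈ S, ∀ b ∈ S, a ≠ b → ∃ i, ε < |F (‖q a - p i‖ ^ 2) - F (‖q b - p i‖ ^ 2)|) →
      S.card ≤ A * (2 * k + 1) ^ B := by
  set θ : ℝ := min (1 / 16) (ε / 22) with hθd
  have hθ : 0 < θ := by positivity
  have hθ1 : θ ≤ 1 / 16 := min_le_left _ _
  have hθ2 : 22 * θ ≤ ε := by
    have := min_le_right (1 / 16 : ℝ) (ε / 22)
    linarith
  obtain ⟨K1, hK1⟩ := exists_nat_gt (1 / θ ^ 5)
  obtain ⟨K2, hK2⟩ := exists_nat_gt (2 / θ)
  obtain ⟨T, hT⟩ := exists_nat_gt (1 / (θ / 6 * θ) ^ 2)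
  rw [div_lt_iff₀ (by positivity)] at hT
  refine ⟨(K1 + 1) * K2 + 1, T + 3, ?_⟩
  intro k p κ q S hS
  rcases Nat.eq_zero_or_pos k with hk | hk
  · subst hk
    have : S.card ≤ 1 := by
      rw [Finset.card_le_one]
      intro a ha b hb
      by_contra hne
      obtain ⟨i, -⟩ := hS a ha b hb hne
      exact i.elim0
    simp; omega
  · haveI : Nonempty (Fin k) := ⟨⟨0, hk⟩⟩
    have h := count_aux p hF hθ hθ1 hK1 hK2 hT q S (fun a ha b hb hab => by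
      obtain ⟨i, hi⟩ := hS a ha b hb hab
      exact ⟨i, by linarith⟩)
    rw [Fintype.card_fin] at h
    refine h.trans ?_
    gcongr
    omega

end Pool.Agent.W747.NT
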